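import Mathlib

open Filter

namespace Pool.Agent.Results.MP_1a7a11_al.DTCOne

/-- The product `u □ v`: the sets `A` with `{x : x⁻¹ A ∈ v} ∈ u`. -/
def box {G : Type} [Group G] (u v : Ultrafilter G) : Set (Set G) :=
  {A | {x : G | {y : G | x * y ∈ A} ∈ v} ∈ u}

/-- The product `u ◇ v`: the sets `A` with `{x : A x⁻¹ ∈ u} ∈ v`. -/
def diamond {G : Type} [Group G] (u v : Ultrafilter G) : Set (Set G) :=
  {A | {x : G | {y : G | y * x ∈ A} ∈ u} ∈ v}

section General

variable {Q : ℕ → Type} [∀ n, Group (Q n)]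

/-- The restricted direct product. -/
def FS (Q : ℕ → Type) [∀ n, Group (Q n)] : Subgroup (∀ n, Q n) where
  carrier := {f | {n | f n ≠ 1}.Finite}
  one_mem' := by
    show {n | (1 : ∀ n, Q n) n ≠ 1}.Finite
    simp
  mul_mem' := by
    intro f h hf hh
    apply (Set.Finite.union hf hh).subset
    intro n hn
    by_contra hcon
    simp only [Set.mem_union, Set.mem_ofPred_eq, not_or, not_not] at hcon
    apply hn
    rw [Pi.mul_apply, hcon.1, hcon.2, one_mul]
  inv_mem' := by
    intro f hf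
    apply Set.Finite.subset hf
    intro n hn h
    apply hn
    rw [Pi.inv_apply, h, inv_one]

lemma FS_finite (w : FS Q) : {n | w.1 n ≠ 1}.Finite := w.2

variable (g y : ∀ n, Q n)

/-- The sequence `x_i`. -/
def xx (i : ℕ) : FS Q :=
  ⟨fun j => if j < i then g j else if j = i then y j else 1, by
    apply (Set.finite_Iic i).subset
    intro j hj
    rw [Set.mem_Iic]
    by_contra hcon
    push Not at hcon
    apply hj
    show (if j < i then g j else if j = i then y j else 1) = 1
    rw [if_neg (by omega), if_neg (by omega)]⟩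

lemma mul_xx_lt (w : FS Q) {i j : ℕ} (h : j < i) : (w * xx g y i).1 j = w.1 j * g j := by
  show w.1 j * (if j < i then g j else if j = i then y j else 1) = _
  rw [if_pos h]

lemma mul_xx_eq (w : FS Q) (i : ℕ) : (w * xx g y i).1 i = w.1 i * y i := by
  show w.1 i * (if i < i then g i else if i = i then y i else 1) = _
  rw [if_neg (lt_irrefl i), if_pos rfl]

lemma mul_xx_gt (w : FS Q) {i j : ℕ} (h : i < j) : (w * xx g y i).1 j = w.1 j := by
  show w.1 j * (if j < i then g j else if j = i then y j else 1) = _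
  rw [if_neg (by omega), if_neg (by omega), mul_one]

/-- positions with entries in `P` -/
def pos (P : ∀ n, Set (Q n)) (w : FS Q) : Set ℕ := {j | w.1 j ∈ P j}

lemma pos_finite {P : ∀ n, Set (Q n)} (h1 : ∀ n, 1 ∉ P n) (w : FS Q) : (pos P w).Finite := by
  apply (FS_finite w).subset
  intro j hj h
  apply h1 j
  rw [← h]
  exact hj

variable {g y}

/-- Behaviour of the positions under multiplication by `x_i`, away from `i`. -/
lemma pos_mul_ne {P : ∀ n, Set (Q n)} (hg : ∀ n z, z ∈ P n ↔ z * g n ∈ P n) (w : FS Q) (i j : ℕ)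
    (h : j ≠ i) : j ∈ pos P (w * xx g y i) ↔ j ∈ pos P w := by
  rw [pos, pos, Set.mem_ofPred_eq, Set.mem_ofPred_eq]
  rcases lt_or_gt_of_ne h with h | h
  · rw [mul_xx_lt g y w h]
    exact (hg j _).symm
  · rw [mul_xx_gt g y w h]

lemma card_pos {P : ∀ n, Set (Q n)} (h1 : ∀ n, 1 ∉ P n) (hg : ∀ n z, z ∈ P n ↔ z * g n ∈ P n)
    (w : FS Q) (i : ℕ) :
    (open Classical in
    (pos P (w * xx g y i)).ncard + (if w.1 i ∈ P i then 1 else 0) =
      (pos P w).ncard + (if w.1 i * y i ∈ P i then 1 else 0)) := by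
  classical
  obtain ⟨T, hT⟩ : ∃ T : Set ℕ, T = pos P w \ {i} := ⟨_, rfl⟩
  have hTf : T.Finite := by
    rw [hT]
    exact (pos_finite h1 w).subset Set.sdiff_subset
  have hiT : i ∉ T := by
    rw [hT]
    simp
  have e1 : (pos P w).ncard = T.ncard + (if w.1 i ∈ P i then 1 else 0) := by
    split_ifs with h
    · have h' : i ∈ pos P w := h
      have : pos P w = insert i T := by
        rw [hT, Set.insert_sdiff_singleton, Set.insert_eq_of_mem h']
      rw [this, Set.ncard_insert_of_notMem hiT hTf]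
    · have h' : i ∉ pos P w := h
      have : pos P w = T := by
        rw [hT, Set.sdiff_singleton_eq_self h']
      rw [this, add_zero]
  have e2 : (pos P (w * xx g y i)).ncard = T.ncard + (if w.1 i * y i ∈ P i then 1 else 0) := by
    have hT2 : T = pos P (w * xx g y i) \ {i} := by
      rw [hT]
      ext j
      rw [Set.mem_sdiff, Set.mem_sdiff, Set.mem_singleton_iff]
      constructor
      · rintro ⟨h2, h3⟩
        exact ⟨(pos_mul_ne hg w i j h3).mpr h2, h3⟩
      · rintro ⟨h2, h3⟩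
        exact ⟨(pos_mul_ne hg w i j h3).mp h2, h3⟩
    split_ifs with h
    · have h' : i ∈ pos P (w * xx g y i) := by
        rw [pos, Set.mem_ofPred_eq, mul_xx_eq]
        exact h
      have : pos P (w * xx g y i) = insert i T := by
        rw [hT2, Set.insert_sdiff_singleton, Set.insert_eq_of_mem h']
      rw [this, Set.ncard_insert_of_notMem hiT hTf]
    · have h' : i ∉ pos P (w * xx g y i) := by
        rw [pos, Set.mem_ofPred_eq, mul_xx_eq]
        exact h
      have : pos P (w * xx g y i) = T := by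
        rw [hT2, Set.sdiff_singleton_eq_self h']
      rw [this, add_zero]
  rw [e1, e2]
  ring

end General

/-- An ultrafilter decides a finite valued function. -/
lemma ultra_const {α : Type} (u : Ultrafilter α) {β : Type} [Finite β] (f : α → β) :
    ∃ b, ∀ᶠ a in u, f a = b := by
  obtain ⟨b, hb⟩ := Ultrafilter.eq_pure_of_finite (u.map f)
  refine ⟨b, ?_⟩
  have : {b} ∈ u.map f := by
    rw [hb]
    exact Set.mem_singleton b
  exact this



section Main

variable {Q : ℕ → Type} [∀ n, Group (Q n)]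
variable {g y : ∀ n, Q n} {H : ∀ n, Subgroup (Q n)}
variable {u : Ultrafilter (FS Q)} {p : Ultrafilter ℕ}

/-- exchange of limits -/
def Exch (g y : ∀ n, Q n) (u : Ultrafilter (FS Q)) (p : Ultrafilter ℕ) : Prop :=
  ∀ A : Set (FS Q), (∀ᶠ w in (u : Filter (FS Q)), ∀ᶠ i in (p : Filter ℕ), w * xx g y i ∈ A) ↔
    (∀ᶠ i in (p : Filter ℕ), ∀ᶠ w in (u : Filter (FS Q)), w * xx g y i ∈ A)

lemma FS_bound (w : FS Q) : ∃ N, ∀ j, N < j → w.1 j = 1 := by
  obtain ⟨N, hN⟩ := (FS_finite w).bddAbove
  refine ⟨N, ?_⟩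
  intro j hj
  by_contra hcon
  have := hN hcon
  omega

lemma step1 (hp : ∀ n : ℕ, ∀ᶠ i in (p : Filter ℕ), n < i) (hE : Exch g y u p)
    {P : ∀ n, Set (Q n)} (h1 : ∀ n, 1 ∉ P n)
    (hg : ∀ n z, z ∈ P n ↔ z * g n ∈ P n) (hy : ∀ n, y n ∈ P n) :
    ∀ᶠ i in (p : Filter ℕ), ∀ᶠ w in (u : Filter (FS Q)), w.1 i ∉ P i ∧ w.1 i * y i ∈ P i := by
  classical
  obtain ⟨r, hr⟩ := ultra_const u (fun w => (((pos P w).ncard : ℕ) : ZMod 3))
  have hA : ∀ᶠ w in (u : Filter (FS Q)), ∀ᶠ i in (p : Filter ℕ),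
      w * xx g y i ∈ {z : FS Q | (((pos P z).ncard : ℕ) : ZMod 3) = r + 1} := by
    filter_upwards [hr] with w hw
    obtain ⟨N, hN⟩ := FS_bound w
    filter_upwards [hp N] with i hi
    have := card_pos (y := y) h1 hg w i
    rw [hN i hi, one_mul, if_neg (h1 i), if_pos (hy i), add_zero] at this
    rw [this, Nat.cast_add, hw, Nat.cast_one]
  have hB := (hE _).mp hA
  filter_upwards [hB] with i hi
  filter_upwards [hi, hr] with w hw1 hw2
  have h3 := card_pos (y := y) h1 hg w i
  have h4 := congrArg (Nat.cast : ℕ → ZMod 3) h3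
  rw [Nat.cast_add, Nat.cast_add, hw2, hw1] at h4
  by_cases ha : w.1 i ∈ P i
  · by_cases hb : w.1 i * y i ∈ P i
    · rw [if_pos ha, if_pos hb] at h4
      exfalso
      clear hr hA hB hi hw1 hw2 h3
      revert h4
      revert r
      decide
    · rw [if_pos ha, if_neg hb] at h4
      exfalso
      clear hr hA hB hi hw1 hw2 h3
      revert h4
      revert r
      decide
  · by_cases hb : w.1 i * y i ∈ P i
    · exact ⟨ha, hb⟩
    · rw [if_neg ha, if_neg hb] at h4
      exfalso
      clear hr hA hB hi hw1 hw2 h3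
      revert h4
      revert r
      decide

/-- bad positions -/
def bad (H : ∀ n, Subgroup (Q n)) (w : FS Q) : Set ℕ := pos (fun n => ((H n : Set (Q n))ᶜ)) w

lemma mem_bad (w : FS Q) (j : ℕ) : j ∈ bad H w ↔ w.1 j ∉ H j := Iff.rfl

lemma bad_finite (w : FS Q) : (bad H w).Finite := by
  apply pos_finite
  intro n h
  exact h (H n).one_mem

lemma hgP (hg : ∀ n, g n ∈ H n) : ∀ n z, z ∈ ((H n : Set (Q n))ᶜ) ↔ z * g n ∈ ((H n : Set (Q n))ᶜ) := by
  intro n z
  rw [Set.mem_compl_iff, Set.mem_compl_iff, SetLike.mem_coe, SetLike.mem_coe,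
    Subgroup.mul_mem_cancel_right (H n) (hg n)]

lemma bad_mul (hg : ∀ n, g n ∈ H n) (hy : ∀ n, y n ∉ H n) (w : FS Q) (i : ℕ) (hi : w.1 i = 1) :
    bad H (w * xx g y i) = insert i (bad H w) := by
  ext j
  rw [Set.mem_insert_iff]
  by_cases hj : j = i
  · subst hj
    rw [mem_bad, mul_xx_eq, hi, one_mul]
    exact ⟨fun _ => Or.inl rfl, fun _ => hy j⟩
  · rw [bad, bad, pos_mul_ne (hgP hg) w i j hj]
    simp [hj]

lemma notMem_bad (w : FS Q) (i : ℕ) (hi : w.1 i = 1) : i ∉ bad H w := by
  rw [mem_bad, hi]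
  exact fun h => h (H i).one_mem

/-- number of bad positions below `j` -/
noncomputable def cnt (H : ∀ n, Subgroup (Q n)) (z : FS Q) (j : ℕ) : ℕ :=
  (bad H z ∩ Set.Iio j).ncard

lemma cnt_le (z : FS Q) (j : ℕ) : cnt H z j ≤ (bad H z).ncard :=
  Set.ncard_le_ncard Set.inter_subset_left (bad_finite z)

lemma cnt_mul_le (hg : ∀ n, g n ∈ H n) (hy : ∀ n, y n ∉ H n) (w : FS Q) (i j : ℕ)
    (hi : w.1 i = 1) (h : j ≤ i) : cnt H (w * xx g y i) j = cnt H w j := by
  rw [cnt, cnt, bad_mul hg hy w i hi, Set.insert_inter_of_notMem]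
  rw [Set.mem_Iio]
  omega

lemma cnt_mul_gt (hg : ∀ n, g n ∈ H n) (hy : ∀ n, y n ∉ H n) (w : FS Q) (i j : ℕ)
    (hi : w.1 i = 1) (h : i < j) : cnt H (w * xx g y i) j = cnt H w j + 1 := by
  rw [cnt, cnt, bad_mul hg hy w i hi, Set.insert_inter_of_mem (Set.mem_Iio.mpr h),
    Set.ncard_insert_of_notMem]
  intro h2
  exact notMem_bad w i hi h2.1

lemma cnt_full (w : FS Q) (N j : ℕ) (hN : ∀ j, N < j → w.1 j = 1) (h : N < j) :
    cnt H w j = (bad H w).ncard := by
  rw [cnt]
  congr 1
  apply Set.inter_eq_left.mpr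
  intro b hb
  rw [Set.mem_Iio]
  by_contra hcon
  exact notMem_bad w b (hN b (by omega)) hb

lemma step2 (hp : ∀ n : ℕ, ∀ᶠ i in (p : Filter ℕ), n < i) (hE : Exch g y u p)
    (hg : ∀ n, g n ∈ H n) (hy : ∀ n, y n ∉ H n)
    (hT : ∀ᶠ i in (p : Filter ℕ), ∀ᶠ w in (u : Filter (FS Q)), w.1 i = 1) :
    ∃ n, ∀ᶠ w in (u : Filter (FS Q)), (bad H w).ncard = n := by
  by_contra hcon
  have hcon' : ∀ n, ¬ ∀ᶠ w in (u : Filter (FS Q)), (bad H w).ncard = n := fun n h => hcon ⟨n, h⟩
  have hD : ∀ n : ℕ, ∀ᶠ w in (u : Filter (FS Q)), n ≤ (bad H w).ncard := by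
    intro n
    induction n with
    | zero => exact Filter.Eventually.of_forall (fun w => Nat.zero_le _)
    | succ n ih =>
      have := hcon' n
      rw [← Ultrafilter.eventually_not] at this
      filter_upwards [ih, this] with w h1 h2
      omega
  obtain ⟨r, hr⟩ := ultra_const u
    (fun w => (((bad H w ∩ Set.Iic ((bad H w).ncard + 1)).ncard : ℕ) : ZMod 2))
  have hA : ∀ᶠ w in (u : Filter (FS Q)), ∀ᶠ i in (p : Filter ℕ),
      w * xx g y i ∈ {z : FS Q | (((bad H z ∩ Set.Iic (bad H z).ncard).ncard : ℕ) : ZMod 2) = r} := by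
    filter_upwards [hr] with w hw
    obtain ⟨N, hN⟩ := FS_bound w
    filter_upwards [hp N, hp ((bad H w).ncard + 1)] with i hi hi2
    rw [bad_mul hg hy w i (hN i hi),
      Set.ncard_insert_of_notMem (notMem_bad w i (hN i hi)) (bad_finite w),
      Set.insert_inter_of_notMem, hw]
    rw [Set.mem_Iic]
    omega
  have hB := (hE _).mp hA
  obtain ⟨i, hi, hi2⟩ := (hB.and hT).exists
  obtain ⟨w, ⟨⟨hw1, hw2⟩, hw3⟩, hw4⟩ := (((hi.and hi2).and hr).and (hD i)).exists
  rw [Set.mem_ofPred_eq, bad_mul hg hy w i hw2,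
      Set.ncard_insert_of_notMem (notMem_bad w i hw2) (bad_finite w),
      Set.insert_inter_of_mem, Set.ncard_insert_of_notMem, Nat.cast_add, hw3, Nat.cast_one] at hw1
  · simp at hw1
  · intro h
    exact notMem_bad w i hw2 h.1
  · rw [Set.mem_Iic]
    omega

lemma step3 (hp : ∀ n : ℕ, ∀ᶠ i in (p : Filter ℕ), n < i) (hE : Exch g y u p)
    (hg : ∀ n, g n ∈ H n) (hy : ∀ n, y n ∉ H n)
    (hT : ∀ᶠ i in (p : Filter ℕ), ∀ᶠ w in (u : Filter (FS Q)), w.1 i = 1)
    (n : ℕ) (hD : ∀ᶠ w in (u : Filter (FS Q)), (bad H w).ncard = n) (k : ℕ) (hk : k ≤ n) :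
    ∀ᶠ i in (p : Filter ℕ), ∀ᶠ w in (u : Filter (FS Q)), ∀ j, i < j → j ∉ bad H w →
      cnt H w j = n - k → w.1 j = g j ^ k := by
  induction k with
  | zero =>
    have hA : ∀ᶠ w in (u : Filter (FS Q)), ∀ᶠ i in (p : Filter ℕ),
        w * xx g y i ∈ {z : FS Q | ∀ j, j ∉ bad H z → cnt H z j = n + 1 → z.1 j = 1} := by
      filter_upwards [hD] with w hw
      obtain ⟨N, hN⟩ := FS_bound w
      filter_upwards [hp N] with i hi
      intro j hj hc
      rcases le_or_gt j i with h | h
      · rw [cnt_mul_le hg hy w i j (hN i hi) h] at hc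
        have := cnt_le (H := H) w j
        omega
      · rw [mul_xx_gt g y w h]
        exact hN j (by omega)
    have hB := (hE _).mp hA
    filter_upwards [hB, hT] with i hi hi2
    filter_upwards [hi, hi2] with w hw1 hw2
    intro j hj hj2 hc
    rw [pow_zero]
    have := hw1 j ?_ ?_
    · rw [mul_xx_gt g y w hj] at this
      exact this
    · rw [bad_mul hg hy w i hw2, Set.mem_insert_iff, not_or]
      exact ⟨by omega, hj2⟩
    · rw [cnt_mul_gt hg hy w i j hw2 hj]
      omega
  | succ k ih =>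
    have ih' := ih (by omega)
    obtain ⟨N₀, hN₀⟩ := ih'.exists
    have hA : ∀ᶠ w in (u : Filter (FS Q)), ∀ᶠ i in (p : Filter ℕ),
        w * xx g y i ∈ {z : FS Q | ∀ j, N₀ < j → j ∉ bad H z → cnt H z j = n - k →
          z.1 j = g j ^ (k + 1)} := by
      filter_upwards [hD, hN₀] with w hw hw2
      obtain ⟨N, hN⟩ := FS_bound w
      filter_upwards [hp N] with i hi
      intro j hj hj2 hc
      have hi1 := hN i hi
      rw [bad_mul hg hy w i hi1, Set.mem_insert_iff, not_or] at hj2
      rcases lt_or_gt_of_ne hj2.1 with h | h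
      · rw [cnt_mul_le hg hy w i j hi1 h.le] at hc
        rw [mul_xx_lt g y w h, hw2 j hj hj2.2 hc, pow_succ]
      · rw [cnt_mul_gt hg hy w i j hi1 h, cnt_full w N j hN (by omega)] at hc
        omega
    have hB := (hE _).mp hA
    filter_upwards [hB, hT, hp N₀] with i hi hi2 hi3
    filter_upwards [hi, hi2] with w hw1 hw2
    intro j hj hj2 hc
    have := hw1 j (by omega) ?_ ?_
    · rw [mul_xx_gt g y w hj] at this
      exact this
    · rw [bad_mul hg hy w i hw2, Set.mem_insert_iff, not_or]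
      exact ⟨by omega, hj2⟩
    · rw [cnt_mul_gt hg hy w i j hw2 hj]
      omega

lemma finite_supp [∀ n, Finite (Q n)] (N : ℕ) : {w : FS Q | ∀ j, N < j → w.1 j = 1}.Finite := by
  apply Set.Finite.of_finite_image (f := fun w : FS Q => (fun i : Fin (N + 1) => w.1 i.1))
  · exact Set.toFinite _
  · intro w hw z hz h
    apply Subtype.ext
    funext j
    by_cases hj : N < j
    · rw [hw j hj, hz j hj]
    · exact congrFun h ⟨j, by omega⟩

lemma final [∀ n, Finite (Q n)] (hp : ∀ n : ℕ, ∀ᶠ i in (p : Filter ℕ), n < i)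
    (hg : ∀ n, g n ∈ H n) (hy : ∀ n, y n ∉ H n)
    (hc : ∀ n, ∀ c ∈ H n, (y n)⁻¹ * c * y n ∈ H n → c = 1)
    (hpow : ∀ n k : ℕ, 1 ≤ k → k ≤ n → g n ^ k ≠ 1)
    (hu : ∀ w, u ≠ pure w) : ¬ Exch g y u p := by
  intro hE
  have hT : ∀ᶠ i in (p : Filter ℕ), ∀ᶠ w in (u : Filter (FS Q)), w.1 i = 1 := by
    have e1 := step1 (P := fun n => ((H n : Set (Q n))ᶜ)) hp hE (fun n h => h (H n).one_mem)
      (hgP hg) (fun n h => hy n h)
    have e2 := step1 (P := fun n => {z : Q n | (y n)⁻¹ * z ∈ H n}) hp hE ?_ ?_ ?_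
    · filter_upwards [e1, e2] with i h1 h2
      filter_upwards [h1, h2] with w h3 h4
      apply hc i
      · have := h3.1
        rw [Set.mem_compl_iff, not_not] at this
        exact this
      · have := h4.2
        rw [← mul_assoc] at this
        exact this
    · intro n h
      rw [Set.mem_ofPred_eq, mul_one, inv_mem_iff] at h
      exact hy n h
    · intro n z
      rw [Set.mem_ofPred_eq, Set.mem_ofPred_eq, ← mul_assoc,
        Subgroup.mul_mem_cancel_right (H n) (hg n)]
    · intro n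
      rw [Set.mem_ofPred_eq, inv_mul_cancel]
      exact (H n).one_mem
  obtain ⟨n, hD⟩ := step2 hp hE hg hy hT
  have h3 : ∀ᶠ i in (p : Filter ℕ), ∀ k : Fin (n + 1), ∀ᶠ w in (u : Filter (FS Q)),
      ∀ j, i < j → j ∉ bad H w → cnt H w j = n - k.1 → w.1 j = g j ^ k.1 := by
    rw [Filter.eventually_all]
    intro k
    exact step3 hp hE hg hy hT n hD k.1 (by omega)
  obtain ⟨i₀, hi₀⟩ := h3.exists
  rw [← Filter.eventually_all] at hi₀
  obtain ⟨j₁, ⟨hj1, hj2⟩, hj3⟩ := ((hT.and (hp i₀)).and (hp n)).exists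
  have hfin : ∀ᶠ w in (u : Filter (FS Q)), w ∈ {w : FS Q | ∀ j, j₁ < j → w.1 j = 1} := by
    filter_upwards [hD, hj1, hi₀] with w hw1 hw2 hw3
    have hb := notMem_bad (H := H) w j₁ hw2
    have hle := cnt_le (H := H) w j₁
    have e1 := hw3 ⟨n - cnt H w j₁, by omega⟩ j₁ hj2 hb (by
      show cnt H w j₁ = n - (n - cnt H w j₁)
      omega)
    rw [hw2] at e1
    have e2 : cnt H w j₁ = n := by
      by_contra hcon
      apply hpow j₁ (n - cnt H w j₁) (by omega) (by omega)
      exact e1.symm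
    have e3 : bad H w ∩ Set.Iio j₁ = bad H w := by
      apply Set.eq_of_subset_of_ncard_le Set.inter_subset_left _ (bad_finite w)
      rw [hw1]
      exact e2.symm.le
    intro j hj
    have e4 : j ∉ bad H w := by
      intro h
      rw [← e3] at h
      have := h.2
      rw [Set.mem_Iio] at this
      omega
    have e5 := hw3 ⟨0, by omega⟩ j (by omega) e4 (by
      show cnt H w j = n - 0
      rw [cnt]
      have : bad H w ∩ Set.Iio j = bad H w := by
        apply Set.inter_eq_left.mpr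
        intro b hb
        rw [← e3] at hb
        have := hb.2
        rw [Set.mem_Iio] at this ⊢
        omega
      rw [this, hw1]
      omega)
    rw [e5]
    exact pow_zero _
  obtain ⟨w, -, hw⟩ := Ultrafilter.eq_pure_of_finite_mem (finite_supp j₁) hfin
  exact hu w hw

end Main

/-! ### The concrete group -/

/-- the finite groups -/
abbrev QQ (n : ℕ) : Type := Equiv.Perm (ZMod (n + 2) ⊕ ZMod (n + 2))

/-- the rotation of the left copy -/
def gg (n : ℕ) : QQ n := Equiv.sumCongr (Equiv.addRight 1) (Equiv.refl _)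

/-- the swap -/
def yy (n : ℕ) : QQ n := Equiv.sumComm _ _

/-- the stabiliser of the right copy -/
def HH (n : ℕ) : Subgroup (QQ n) where
  carrier := {σ | ∀ a, σ (Sum.inr a) = Sum.inr a}
  one_mem' := fun a => rfl
  mul_mem' := by
    intro σ τ hσ hτ a
    rw [Equiv.Perm.mul_apply, hτ a, hσ a]
  inv_mem' := by
    intro σ hσ a
    rw [Equiv.Perm.inv_eq_iff_eq, hσ a]

lemma gg_mem (n : ℕ) : gg n ∈ HH n := by
  intro a
  rfl

lemma yy_notMem (n : ℕ) : yy n ∉ HH n := by
  intro h
  have := h 0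
  exact absurd this (by
    show Sum.inl 0 ≠ Sum.inr 0
    simp)

lemma HH_conj (n : ℕ) : ∀ c ∈ HH n, (yy n)⁻¹ * c * yy n ∈ HH n → c = 1 := by
  intro c hc hy
  ext x
  rcases x with a | a
  · have := hy a
    rw [Equiv.Perm.mul_apply, Equiv.Perm.mul_apply, Equiv.Perm.inv_eq_iff_eq] at this
    exact this
  · exact hc a

lemma gg_pow_apply (n k : ℕ) : (gg n ^ k) (Sum.inl 0) = Sum.inl (k : ZMod (n + 2)) := by
  induction k with
  | zero =>
    rw [pow_zero, Nat.cast_zero]
    rfl
  | succ k ih =>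
    rw [pow_succ', Equiv.Perm.mul_apply, ih, Nat.cast_succ]
    rfl

lemma gg_pow (n k : ℕ) (h1 : 1 ≤ k) (h2 : k ≤ n) : gg n ^ k ≠ 1 := by
  intro h
  have := gg_pow_apply n k
  rw [h, Equiv.Perm.one_apply] at this
  have h3 := (Sum.inl_injective this).symm
  rw [ZMod.natCast_eq_zero_iff] at h3
  have := Nat.le_of_dvd h1 h3
  omega

theorem result : ∃ (G : Type) (_ : Group G), Infinite G ∧ Countable G ∧
    (∀ g : G, (conjugatesOf g).Finite) ∧
    ∃ v : Ultrafilter G, ∀ u : Ultrafilter G, (∀ g : G, u ≠ pure g) → box u v ≠ diamond u v := by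
  refine ⟨FS QQ, inferInstance, ?_, ?_, ?_, ?_⟩
  · apply Infinite.of_injective (xx gg yy)
    intro i k h
    by_contra hne
    rcases lt_or_gt_of_ne hne with hlt | hlt
    · have h2 := congrArg (fun w : FS QQ => w.1 k) h
      have h3 : (xx gg yy i).1 k = 1 := by
        show (if k < i then gg k else if k = i then yy k else 1) = 1
        rw [if_neg (by omega), if_neg (by omega)]
      have h4 : (xx gg yy k).1 k = yy k := by
        show (if k < k then gg k else if k = k then yy k else 1) = _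
        rw [if_neg (by omega), if_pos rfl]
      have h5 : (1 : QQ k) = yy k := by
        rw [← h3, ← h4]
        exact h2
      apply yy_notMem k
      rw [← h5]
      exact (HH k).one_mem
    · have h2 := congrArg (fun w : FS QQ => w.1 i) h
      have h3 : (xx gg yy k).1 i = 1 := by
        show (if i < k then gg i else if i = k then yy i else 1) = 1
        rw [if_neg (by omega), if_neg (by omega)]
      have h4 : (xx gg yy i).1 i = yy i := by
        show (if i < i then gg i else if i = i then yy i else 1) = _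
        rw [if_neg (by omega), if_pos rfl]
      have h5 : (1 : QQ i) = yy i := by
        rw [← h3, ← h4]
        exact h2.symm
      apply yy_notMem i
      rw [← h5]
      exact (HH i).one_mem
  · rw [← Set.countable_univ_iff]
    have : (Set.univ : Set (FS QQ)) ⊆ ⋃ N : ℕ, {w : FS QQ | ∀ j, N < j → w.1 j = 1} := by
      intro w _
      rw [Set.mem_iUnion]
      exact FS_bound w
    exact (Set.countable_iUnion (fun N => (finite_supp N).countable)).mono this
  · intro w
    obtain ⟨N, hN⟩ := FS_bound w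
    apply (finite_supp N).subset
    intro z hz
    have hz : IsConj w z := hz
    rw [isConj_iff] at hz
    obtain ⟨c, rfl⟩ := hz
    intro j hj
    show c.1 j * w.1 j * (c.1 j)⁻¹ = 1
    rw [hN j hj, mul_one, mul_inv_cancel]
  · refine ⟨Ultrafilter.map (xx gg yy) (Filter.hyperfilter ℕ), ?_⟩
    intro u hu hbox
    have hp : ∀ n : ℕ, ∀ᶠ i in (Filter.hyperfilter ℕ : Filter ℕ), n < i := by
      intro n
      exact Filter.hyperfilter_le_cofinite (by
        rw [Nat.cofinite_eq_atTop]
        exact Filter.eventually_gt_atTop n)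
    apply final (u := u) (p := Filter.hyperfilter ℕ) hp gg_mem yy_notMem HH_conj gg_pow hu
    intro A
    have : A ∈ box u (Ultrafilter.map (xx gg yy) (Filter.hyperfilter ℕ)) ↔
        A ∈ diamond u (Ultrafilter.map (xx gg yy) (Filter.hyperfilter ℕ)) := by
      rw [hbox]
    exact this

end Pool.Agent.Results.MP_1a7a11_al.DTCOne
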